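import Mathlib

set_option autoImplicit false

open Metric Set Filter Topology

namespace Pool.Agent.Helper234.RadSeg.Univ

variable {f : ℂ → ℂ} {U : Set ℂ}

/-- An injective holomorphic map is open, local form. -/
theorem nhds_le_map (hU : IsOpen U) (hf : DifferentiableOn ℂ f U) (hi : InjOn f U)
    {z : ℂ} (hz : z ∈ U) : 𝓝 (f z) ≤ map f (𝓝 z) := by
  have ha : AnalyticAt ℂ f z := hf.analyticAt (hU.mem_nhds hz)
  rcases ha.eventually_constant_or_nhds_le_map_nhds with h | h
  · exfalso
    have h1 : ∀ᶠ w in 𝓝[≠] z, f w = f z ∧ w ∈ U :=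
      (h.and (hU.mem_nhds hz)).filter_mono nhdsWithin_le_nhds
    have h2 : ∀ᶠ w in 𝓝[≠] z, w ≠ z := eventually_mem_nhdsWithin
    obtain ⟨w, hw, hw2⟩ := (h1.and h2).exists
    exact hw2 (hi hw.2 hz hw.1)
  · exact h

theorem map_nhds (hU : IsOpen U) (hf : DifferentiableOn ℂ f U) (hi : InjOn f U)
    {z : ℂ} (hz : z ∈ U) : map f (𝓝 z) = 𝓝 (f z) := by
  apply le_antisymm
  · exact (hf.analyticAt (hU.mem_nhds hz)).continuousAt
  · exact nhds_le_map hU hf hi hz

theorem isOpen_image (hU : IsOpen U) (hf : DifferentiableOn ℂ f U) (hi : InjOn f U)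
    {s : Set ℂ} (hs : IsOpen s) (hsU : s ⊆ U) : IsOpen (f '' s) := by
  rw [isOpen_iff_mem_nhds]
  rintro _ ⟨z, hz, rfl⟩
  rw [← map_nhds hU hf hi (hsU hz)]
  exact image_mem_map (hs.mem_nhds hz)

theorem invFunOn_left (hi : InjOn f U) {z : ℂ} (hz : z ∈ U) :
    Function.invFunOn f U (f z) = z :=
  hi.leftInvOn_invFunOn hz

theorem invFunOn_mem {w : ℂ} (hw : w ∈ f '' U) :
    Function.invFunOn f U w ∈ U :=
  Function.invFunOn_mem (by simpa using hw)

theorem invFunOn_right {w : ℂ} (hw : w ∈ f '' U) :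
    f (Function.invFunOn f U w) = w :=
  Function.invFunOn_eq (by simpa using hw)

theorem continuousAt_inv (hU : IsOpen U) (hf : DifferentiableOn ℂ f U) (hi : InjOn f U)
    {w : ℂ} (hw : w ∈ f '' U) : ContinuousAt (Function.invFunOn f U) w := by
  obtain ⟨z, hz, rfl⟩ := hw
  rw [ContinuousAt, invFunOn_left hi hz]
  intro V hV
  rw [mem_map]
  have h1 : V ∩ U ∈ 𝓝 z := inter_mem hV (hU.mem_nhds hz)
  have h2 : f '' (V ∩ U) ∈ 𝓝 (f z) := by
    rw [← map_nhds hU hf hi hz]
    exact image_mem_map h1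
  refine mem_of_superset h2 ?_
  rintro _ ⟨y, hy, rfl⟩
  simp only [mem_preimage]
  rw [invFunOn_left hi hy.2]
  exact hy.1

/-- the inverse is differentiable where the derivative does not vanish -/
theorem hasDerivAt_inv_of_ne (hU : IsOpen U) (hf : DifferentiableOn ℂ f U) (hi : InjOn f U)
    {z : ℂ} (hz : z ∈ U) (hd : deriv f z ≠ 0) :
    HasDerivAt (Function.invFunOn f U) (deriv f z)⁻¹ (f z) := by
  have hzz : Function.invFunOn f U (f z) = z := invFunOn_left hi hz
  apply HasDerivAt.of_local_left_inverse (f := f)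
  · exact continuousAt_inv hU hf hi (mem_image_of_mem f hz)
  · rw [hzz]
    exact (hf.differentiableAt (hU.mem_nhds hz)).hasDerivAt
  · exact hd
  · have : f '' U ∈ 𝓝 (f z) := (isOpen_image hU hf hi hU subset_rfl).mem_nhds (mem_image_of_mem f hz)
    filter_upwards [this] with w hw using invFunOn_right hw

/-- zeros of the derivative are isolated -/
theorem eventually_deriv_ne_zero (hU : IsOpen U) (hf : DifferentiableOn ℂ f U) (hi : InjOn f U)
    {z : ℂ} (hz : z ∈ U) : ∀ᶠ y in 𝓝[≠] z, deriv f y ≠ 0 := by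
  have ha : AnalyticAt ℂ f z := hf.analyticAt (hU.mem_nhds hz)
  rcases ha.deriv.eventually_eq_zero_or_eventually_ne_zero with h | h
  · exfalso
    obtain ⟨r, hr, hrs⟩ := Metric.eventually_nhds_iff_ball.mp (h.and (hU.mem_nhds hz))
    have hconst : ∀ y ∈ ball z r, f y = f z := by
      intro y hy
      have hdiff : DifferentiableOn ℂ f (ball z r) := hf.mono (fun x hx => (hrs x hx).2)
      refine (convex_ball z r).is_const_of_fderivWithin_eq_zero (𝕜 := ℂ) hdiff ?_ hy (mem_ball_self hr)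
      intro x hx
      rw [fderivWithin_of_isOpen isOpen_ball hx]
      ext
      simp [(hrs x hx).1]
    have h1 : z + (r/2 : ℝ) ∈ ball z r := by
      simp [abs_of_pos hr]
      linarith
    have h2 := hi (hrs _ h1).2 hz (hconst _ h1)
    have : ((r/2 : ℝ) : ℂ) = 0 := by
      simpa using h2
    have : r / 2 = 0 := by exact_mod_cast this
    linarith
  · exact h

theorem differentiableAt_inv (hU : IsOpen U) (hf : DifferentiableOn ℂ f U) (hi : InjOn f U)
    {w : ℂ} (hw : w ∈ f '' U) : DifferentiableAt ℂ (Function.invFunOn f U) w := by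
  obtain ⟨z, hz, rfl⟩ := hw
  refine (Complex.analyticAt_of_differentiable_on_punctured_nhds_of_continuousAt ?_
    (continuousAt_inv hU hf hi (mem_image_of_mem f hz))).differentiableAt
  have h1 : ∀ᶠ y in 𝓝 z, y ∈ U ∧ (y ≠ z → deriv f y ≠ 0) := by
    have := eventually_deriv_ne_zero hU hf hi hz
    rw [eventually_nhdsWithin_iff] at this
    exact (hU.mem_nhds hz |> fun h => (show ∀ᶠ y in 𝓝 z, y ∈ U from h)).and this
  have h2 : ∀ᶠ w in 𝓝 (f z), w ≠ f z → DifferentiableAt ℂ (Function.invFunOn f U) w := by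
    rw [← map_nhds hU hf hi hz, eventually_map]
    filter_upwards [h1] with y hy hne
    have hyz : y ≠ z := fun h => hne (by rw [h])
    exact (hasDerivAt_inv_of_ne hU hf hi hy.1 (hy.2 hyz)).differentiableAt
  rw [eventually_nhdsWithin_iff]
  exact h2

theorem deriv_ne_zero (hU : IsOpen U) (hf : DifferentiableOn ℂ f U) (hi : InjOn f U)
    {z : ℂ} (hz : z ∈ U) : deriv f z ≠ 0 := by
  have hzz : Function.invFunOn f U (f z) = z := invFunOn_left hi hz
  have hg := (differentiableAt_inv hU hf hi (mem_image_of_mem f hz)).hasDerivAt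
  have hf' : HasDerivAt f (deriv f z) z := (hf.differentiableAt (hU.mem_nhds hz)).hasDerivAt
  have hcomp : HasDerivAt (Function.invFunOn f U ∘ f)
      (deriv (Function.invFunOn f U) (f z) * deriv f z) z := HasDerivAt.comp z hg hf'
  have hid : HasDerivAt (Function.invFunOn f U ∘ f) 1 z := by
    refine (hasDerivAt_id z).congr_of_eventuallyEq ?_
    filter_upwards [hU.mem_nhds hz] with y hy
    simp [invFunOn_left hi hy]
  have := hcomp.unique hid
  intro h
  rw [h] at this
  simp at this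

theorem hasDerivAt_inv (hU : IsOpen U) (hf : DifferentiableOn ℂ f U) (hi : InjOn f U)
    {z : ℂ} (hz : z ∈ U) :
    HasDerivAt (Function.invFunOn f U) (deriv f z)⁻¹ (f z) :=
  hasDerivAt_inv_of_ne hU hf hi hz (deriv_ne_zero hU hf hi hz)

end Pool.Agent.Helper234.RadSeg.Univ
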