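import Mathlib
import Pool.Agent.Helper234.RadSeg.Univ

set_option autoImplicit false

open Metric Set Filter Topology MeasureTheory
open scoped ENNReal Real

namespace Pool.Agent.Helper234.RadSeg

/-- square of the modulus of the logarithmic derivative -/
noncomputable def dens (φ : ℂ → ℂ) (w : ℂ) : ℝ≥0∞ := ENNReal.ofReal (‖deriv φ w‖ ^ 2 / ‖φ w‖ ^ 2)

theorem polar_iter (F : ℂ → ℝ≥0∞) (hF : Measurable F) :
    ∫⁻ w, F w = ∫⁻ θ in Ioo (-π) π, ∫⁻ r in Ioi (0 : ℝ),
      ENNReal.ofReal r * F ((r : ℂ) * Complex.exp (θ * Complex.I)) := by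
  have hG : Measurable (fun p : ℝ × ℝ => ENNReal.ofReal p.1 *
      F ((p.1 : ℂ) * Complex.exp (p.2 * Complex.I))) := by
    refine (ENNReal.measurable_ofReal.comp measurable_fst).mul (hF.comp ?_)
    exact (Complex.measurable_ofReal.comp measurable_fst).mul
      (Complex.measurable_exp.comp
        ((Complex.measurable_ofReal.comp measurable_snd).mul_const _))
  rw [← Complex.lintegral_comp_polarCoord_symm F]
  have h1 : ∀ p : ℝ × ℝ, ENNReal.ofReal p.1 • F (Complex.polarCoord.symm p) =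
      ENNReal.ofReal p.1 * F ((p.1 : ℂ) * Complex.exp (p.2 * Complex.I)) := by
    intro p
    rw [smul_eq_mul, Complex.polarCoord_symm_apply, Complex.exp_mul_I]
    push_cast
    rfl
  simp only [h1]
  rw [polarCoord_target, Measure.volume_eq_prod, ← Measure.prod_restrict,
    lintegral_prod_symm _ hG.aemeasurable]

theorem annulus_inner (δ : ℝ) (hδ : 0 < δ) (hδ1 : δ ≤ 1) :
    ∫⁻ r in Ico δ 1, ENNReal.ofReal (1 / r) = ENNReal.ofReal (Real.log (1 / δ)) := by
  have hcont : ContinuousOn (fun r : ℝ => 1 / r) (Icc δ 1) := by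
    refine continuousOn_const.div continuousOn_id fun r hr => ?_
    exact (lt_of_lt_of_le hδ hr.1).ne'
  have hint : IntegrableOn (fun r : ℝ => 1 / r) (Ico δ 1) :=
    (hcont.integrableOn_Icc).mono_set Ico_subset_Icc_self
  rw [← ofReal_integral_eq_lintegral_ofReal hint]
  · congr 1
    rw [integral_Ico_eq_integral_Ioc, ← intervalIntegral.integral_of_le hδ1,
      integral_one_div_of_pos hδ one_pos]
  · refine (ae_restrict_iff' measurableSet_Ico).2 (Eventually.of_forall fun r hr => ?_)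
    have hr0 : 0 < r := lt_of_lt_of_le hδ hr.1
    change 0 ≤ 1 / r
    positivity

theorem annulus (δ : ℝ) (hδ : 0 < δ) (hδ1 : δ ≤ 1) :
    ∫⁻ z in {z : ℂ | δ ≤ ‖z‖ ∧ ‖z‖ < 1}, ENNReal.ofReal (1 / ‖z‖ ^ 2) ≤
      ENNReal.ofReal (2 * π * Real.log (1 / δ)) := by
  have hA : MeasurableSet {z : ℂ | δ ≤ ‖z‖ ∧ ‖z‖ < 1} := by
    have h1 : MeasurableSet {z : ℂ | δ ≤ ‖z‖} := measurableSet_le measurable_const measurable_norm
    have h2 : MeasurableSet {z : ℂ | ‖z‖ < 1} := measurableSet_lt measurable_norm measurable_const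
    exact h1.inter h2
  have hf : Measurable (fun z : ℂ => ENNReal.ofReal (1 / ‖z‖ ^ 2)) :=
    (measurable_const.div (measurable_norm.pow_const 2)).ennreal_ofReal
  rw [← lintegral_indicator hA, polar_iter _ (hf.indicator hA)]
  have hin : ∀ θ : ℝ, ∫⁻ r in Ioi (0 : ℝ), ENNReal.ofReal r *
      {z : ℂ | δ ≤ ‖z‖ ∧ ‖z‖ < 1}.indicator (fun z : ℂ => ENNReal.ofReal (1 / ‖z‖ ^ 2))
        ((r : ℂ) * Complex.exp (θ * Complex.I)) ≤ ENNReal.ofReal (Real.log (1 / δ)) := by
    intro θ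
    rw [← annulus_inner δ hδ hδ1, ← lintegral_indicator measurableSet_Ico]
    refine le_trans (setLIntegral_mono' measurableSet_Ioi (g := (Ico δ 1).indicator
      fun r : ℝ => ENNReal.ofReal (1 / r)) ?_) (setLIntegral_le_lintegral _ _)
    intro r hr
    have hr0 : 0 < r := hr
    have hn : ‖(r : ℂ) * Complex.exp (θ * Complex.I)‖ = r := by
      rw [norm_mul, Complex.norm_exp_ofReal_mul_I, mul_one, Complex.norm_real,
        Real.norm_of_nonneg hr0.le]
    by_cases hmem : r ∈ Ico δ 1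
    · have hmem' : (r : ℂ) * Complex.exp (θ * Complex.I) ∈ {z : ℂ | δ ≤ ‖z‖ ∧ ‖z‖ < 1} := by
        change δ ≤ ‖(r : ℂ) * Complex.exp (θ * Complex.I)‖ ∧
          ‖(r : ℂ) * Complex.exp (θ * Complex.I)‖ < 1
        rw [hn]
        exact hmem
      rw [indicator_of_mem hmem, indicator_of_mem hmem', hn, ← ENNReal.ofReal_mul hr0.le]
      refine le_of_eq (congrArg ENNReal.ofReal ?_)
      field_simp
    · have hmem' : (r : ℂ) * Complex.exp (θ * Complex.I) ∉ {z : ℂ | δ ≤ ‖z‖ ∧ ‖z‖ < 1} := by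
        intro h
        apply hmem
        have h' : δ ≤ ‖(r : ℂ) * Complex.exp (θ * Complex.I)‖ ∧
          ‖(r : ℂ) * Complex.exp (θ * Complex.I)‖ < 1 := h
        rw [hn] at h'
        exact h'
      rw [indicator_of_notMem hmem', mul_zero]
      exact zero_le
  calc ∫⁻ θ in Ioo (-π) π, ∫⁻ r in Ioi (0 : ℝ), ENNReal.ofReal r *
      {z : ℂ | δ ≤ ‖z‖ ∧ ‖z‖ < 1}.indicator (fun z : ℂ => ENNReal.ofReal (1 / ‖z‖ ^ 2))
        ((r : ℂ) * Complex.exp (θ * Complex.I))
      ≤ ∫⁻ _θ in Ioo (-π) π, ENNReal.ofReal (Real.log (1 / δ)) := lintegral_mono fun θ => hin θ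
    _ = ENNReal.ofReal (2 * π * Real.log (1 / δ)) := by
        rw [setLIntegral_const, Real.volume_Ioo, mul_comm, ← ENNReal.ofReal_mul (by
          have := Real.pi_pos
          linarith)]
        congr 1
        ring

theorem det_restrict (c : ℂ) :
    |((ContinuousLinearMap.toSpanSingleton ℂ c).restrictScalars ℝ).det| = ‖c‖ ^ 2 := by
  simp [ContinuousLinearMap.det, LinearMap.det_restrictScalars, Algebra.norm_complex_eq,
    Complex.normSq_eq_norm_sq]

theorem energy_upper (φ : ℂ → ℂ) (G A : Set ℂ) (hG : IsOpen G) (hφ : DifferentiableOn ℂ φ G)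
    (hinj : InjOn φ G) (hA : MeasurableSet A) (hAG : A ⊆ G) (δ : ℝ) (hδ : 0 < δ) (hδ1 : δ ≤ 1)
    (h1 : ∀ w ∈ A, δ ≤ ‖φ w‖ ∧ ‖φ w‖ < 1) :
    ∫⁻ w in A, dens φ w ≤ ENNReal.ofReal (2 * π * Real.log (1 / δ)) := by
  refine le_trans (le_of_eq ?_) ((lintegral_mono_set (μ := volume)
    (f := fun z : ℂ => ENNReal.ofReal (1 / ‖z‖ ^ 2)) (s := φ '' A) ?_).trans (annulus δ hδ hδ1))
  · rw [lintegral_image_eq_lintegral_abs_det_fderiv_mul volume hA
      (f' := fun x => (ContinuousLinearMap.toSpanSingleton ℂ (deriv φ x)).restrictScalars ℝ)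
      (fun x hx => (((hφ.differentiableAt (hG.mem_nhds (hAG hx))).hasDerivAt).hasFDerivAt.restrictScalars
        ℝ).hasFDerivWithinAt) (hinj.mono hAG)]
    refine setLIntegral_congr_fun hA fun w _ => ?_
    simp only [det_restrict, dens]
    rw [← ENNReal.ofReal_mul (by positivity)]
    congr 1
    ring
  · rintro _ ⟨w, hw, rfl⟩
    exact h1 w hw

theorem ray_lower (φ : ℂ → ℂ) (G : Set ℂ) (hG : IsOpen G) (hφ : DifferentiableOn ℂ φ G)
    (e : ℂ) (he : ‖e‖ = 1) (ε s : ℝ) (hε : 0 < ε) (hs : ε < s)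
    (hseg : ∀ r : ℝ, ε ≤ r → r < s → (r : ℂ) * e ∈ G ∧ φ ((r : ℂ) * e) ≠ 0)
    (hlim : Tendsto (fun r : ℝ => ‖φ ((r : ℂ) * e)‖) (𝓝[<] s) (𝓝 1)) :
    ENNReal.ofReal (-2 * Real.log ‖φ ((ε : ℂ) * e)‖ - Real.log (s / ε)) ≤
      ∫⁻ r in Ioo ε s, ENNReal.ofReal r * dens φ ((r : ℂ) * e) := by
  have hpc : Continuous (fun r : ℝ => (r : ℂ) * e) := by fun_prop
  have hpath : ∀ r : ℝ, HasDerivAt (fun r : ℝ => (r : ℂ) * e) e r := by
    intro r
    simpa using (Complex.ofRealCLM.hasDerivAt (x := r)).mul_const e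
  have hder : ∀ r : ℝ, ε ≤ r → r < s →
      HasDerivAt (fun r : ℝ => φ ((r : ℂ) * e)) (deriv φ ((r : ℂ) * e) * e) r := by
    intro r h1 h2
    have hd : HasDerivAt φ (deriv φ ((r : ℂ) * e)) ((r : ℂ) * e) :=
      (hφ.differentiableAt (hG.mem_nhds (hseg r h1 h2).1)).hasDerivAt
    exact hd.comp r (hpath r)
  set u : ℝ → ℝ := fun r => ‖φ ((r : ℂ) * e)‖ ^ 2 with hu
  set g : ℝ → ℝ := fun r => 2 * inner ℝ (φ ((r : ℂ) * e)) (deriv φ ((r : ℂ) * e) * e) / u r - r⁻¹
    with hg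
  set f : ℝ → ℝ := fun r => r * (‖deriv φ ((r : ℂ) * e)‖ ^ 2 / ‖φ ((r : ℂ) * e)‖ ^ 2) with hf
  have hu0 : ∀ r : ℝ, ε ≤ r → r < s → 0 < u r := fun r h1 h2 =>
    pow_pos (norm_pos_iff.2 (hseg r h1 h2).2) 2
  have hgf : ∀ r : ℝ, ε ≤ r → r < s → g r ≤ f r := by
    intro r h1 h2
    have hr : 0 < r := lt_of_lt_of_le hε h1
    have hp := hu0 r h1 h2
    have hin : |inner ℝ (φ ((r : ℂ) * e)) (deriv φ ((r : ℂ) * e) * e)| ≤
        ‖φ ((r : ℂ) * e)‖ * ‖deriv φ ((r : ℂ) * e)‖ := by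
      refine (abs_real_inner_le_norm _ _).trans (le_of_eq ?_)
      rw [norm_mul, he, mul_one]
    set A := inner ℝ (φ ((r : ℂ) * e)) (deriv φ ((r : ℂ) * e) * e) with hA
    have hsq : A ^ 2 ≤ u r * ‖deriv φ ((r : ℂ) * e)‖ ^ 2 := by
      have := sq_le_sq' (by linarith [neg_abs_le A, hin] : -(‖φ ((r : ℂ) * e)‖ *
        ‖deriv φ ((r : ℂ) * e)‖) ≤ A) ((le_abs_self A).trans hin)
      calc A ^ 2 ≤ (‖φ ((r : ℂ) * e)‖ * ‖deriv φ ((r : ℂ) * e)‖) ^ 2 := this
        _ = _ := by rw [mul_pow]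
    have h3 : (A / u r) ^ 2 ≤ ‖deriv φ ((r : ℂ) * e)‖ ^ 2 / u r := by
      rw [div_pow, div_le_div_iff₀ (by positivity) hp]
      nlinarith
    have h4 : g r = 2 * (A / u r) - r⁻¹ := by
      simp only [hg, hA]; ring
    have h5 : f r = r * (‖deriv φ ((r : ℂ) * e)‖ ^ 2 / u r) := rfl
    rw [h4, h5]
    have h6 : 0 ≤ (r * (A / u r) - 1) ^ 2 * r⁻¹ := by positivity
    have h7 : (r * (A / u r) - 1) ^ 2 * r⁻¹ = r * (A / u r) ^ 2 - 2 * (A / u r) + r⁻¹ := by
      field_simp
      ring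
    have h8 : r * (A / u r) ^ 2 ≤ r * (‖deriv φ ((r : ℂ) * e)‖ ^ 2 / u r) :=
      mul_le_mul_of_nonneg_left h3 hr.le
    linarith
  have hFd : ∀ r : ℝ, ε ≤ r → r < s →
      HasDerivAt (fun r => Real.log (u r) - Real.log r) (g r) r := by
    intro r h1 h2
    have hr : r ≠ 0 := (lt_of_lt_of_le hε h1).ne'
    exact ((hder r h1 h2).norm_sq.log (hu0 r h1 h2).ne').sub (Real.hasDerivAt_log hr)
  have main : ∀ s1 ∈ Ioo ε s, ENNReal.ofReal
      ((Real.log (u s1) - Real.log s1) - (Real.log (u ε) - Real.log ε)) ≤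
      ∫⁻ r in Ioo ε s, ENNReal.ofReal r * dens φ ((r : ℂ) * e) := by
    intro s1 hs1
    have hmem : ∀ r ∈ Icc ε s1, ε ≤ r ∧ r < s := fun r hr => ⟨hr.1, lt_of_le_of_lt hr.2 hs1.2⟩
    have hmap : MapsTo (fun r : ℝ => (r : ℂ) * e) (Icc ε s1) G := fun r hr =>
      (hseg r (hmem r hr).1 (hmem r hr).2).1
    have c1 : ContinuousOn (fun r : ℝ => φ ((r : ℂ) * e)) (Icc ε s1) :=
      hφ.continuousOn.comp hpc.continuousOn hmap
    have c2 : ContinuousOn (fun r : ℝ => deriv φ ((r : ℂ) * e)) (Icc ε s1) :=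
      (hφ.deriv hG).continuousOn.comp hpc.continuousOn hmap
    have cu : ContinuousOn u (Icc ε s1) := c1.norm.pow 2
    have cf : ContinuousOn f (Icc ε s1) :=
      continuousOn_id.mul ((c2.norm.pow 2).div (c1.norm.pow 2)
        fun r hr => (hu0 r (hmem r hr).1 (hmem r hr).2).ne')
    have cg : ContinuousOn g (Icc ε s1) := by
      refine ContinuousOn.sub (ContinuousOn.div (continuousOn_const.mul ?_) cu
        fun r hr => (hu0 r (hmem r hr).1 (hmem r hr).2).ne') (continuousOn_inv₀.mono ?_)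
      · exact ContinuousOn.inner (𝕜 := ℝ) c1 (c2.mul continuousOn_const)
      · intro r hr
        exact (lt_of_lt_of_le hε hr.1).ne'
    have hI : ∫ r in ε..s1, g r =
        (Real.log (u s1) - Real.log s1) - (Real.log (u ε) - Real.log ε) := by
      refine intervalIntegral.integral_eq_sub_of_hasDerivAt
        (f := fun r => Real.log (u r) - Real.log r) ?_ ?_
      · intro r hr
        rw [uIcc_of_le hs1.1.le] at hr
        exact hFd r (hmem r hr).1 (hmem r hr).2
      · exact ContinuousOn.intervalIntegrable (by rw [uIcc_of_le hs1.1.le]; exact cg)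
    have hle : ∫ r in ε..s1, g r ≤ ∫ r in ε..s1, f r := by
      refine intervalIntegral.integral_mono_on hs1.1.le ?_ ?_ ?_
      · exact ContinuousOn.intervalIntegrable (by rw [uIcc_of_le hs1.1.le]; exact cg)
      · exact ContinuousOn.intervalIntegrable (by rw [uIcc_of_le hs1.1.le]; exact cf)
      · intro r hr
        exact hgf r (hmem r hr).1 (hmem r hr).2
    rw [← hI]
    refine (ENNReal.ofReal_le_ofReal hle).trans ?_
    rw [intervalIntegral.integral_of_le hs1.1.le,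
      ofReal_integral_eq_lintegral_ofReal]
    · calc ∫⁻ r in Ioc ε s1, ENNReal.ofReal (f r)
          = ∫⁻ r in Ioc ε s1, ENNReal.ofReal r * dens φ ((r : ℂ) * e) := by
            refine setLIntegral_congr_fun measurableSet_Ioc fun r hr => ?_
            simp only [hf, dens]
            rw [ENNReal.ofReal_mul (lt_trans hε hr.1).le]
        _ ≤ _ := lintegral_mono_set (show Ioc ε s1 ⊆ Ioo ε s from
            fun r hr => ⟨hr.1, lt_of_le_of_lt hr.2 hs1.2⟩)
    · exact (cf.integrableOn_Icc).mono_set Ioc_subset_Icc_self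
    · refine (ae_restrict_iff' measurableSet_Ioc).2 (Eventually.of_forall fun r hr => ?_)
      have hr0 : 0 < r := lt_trans hε hr.1
      show 0 ≤ f r
      simp only [hf]
      positivity
  have hlimu : Tendsto (fun r => Real.log (u r)) (𝓝[<] s) (𝓝 0) := by
    have h1 : Tendsto u (𝓝[<] s) (𝓝 (1 ^ 2)) := hlim.pow 2
    have h2 := h1.log (by norm_num)
    simpa using h2
  have hlims : Tendsto (fun r => Real.log r) (𝓝[<] s) (𝓝 (Real.log s)) :=
    ((Real.continuousAt_log (hε.trans hs).ne').tendsto).mono_left nhdsWithin_le_nhds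
  have hlim2 : Tendsto (fun s1 => ENNReal.ofReal
      ((Real.log (u s1) - Real.log s1) - (Real.log (u ε) - Real.log ε))) (𝓝[<] s)
      (𝓝 (ENNReal.ofReal ((0 - Real.log s) - (Real.log (u ε) - Real.log ε)))) :=
    (ENNReal.continuous_ofReal.tendsto _).comp ((hlimu.sub hlims).sub tendsto_const_nhds)
  have hfin : (0 - Real.log s) - (Real.log (u ε) - Real.log ε) =
      -2 * Real.log ‖φ ((ε : ℂ) * e)‖ - Real.log (s / ε) := by
    simp only [hu]
    rw [Real.log_pow, Real.log_div (hε.trans hs).ne' hε.ne']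
    push_cast
    ring
  rw [hfin] at hlim2
  exact le_of_tendsto hlim2 (Filter.mem_of_superset (Ioo_mem_nhdsLT hs) main)

theorem isOpen_all {X : Type} [TopologicalSpace X] (G : Set ℂ) (hG : IsOpen G) (g : X → ℝ → ℂ)
    (hg : Continuous fun p : X × ℝ => g p.1 p.2) (a b : ℝ) :
    IsOpen {x | ∀ t ∈ Icc a b, g x t ∈ G} := by
  rw [isOpen_iff_eventually]
  intro x hx
  apply isCompact_Icc.eventually_forall_of_forall_eventually
  intro t ht
  exact (hg.continuousAt (x := (x, t))).eventually (hG.mem_nhds (hx t ht))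

/-- the part of `G` visible from the origin -/
def starPart (G : Set ℂ) : Set ℂ := {w | ∀ t ∈ Icc (0 : ℝ) 1, (t : ℂ) * w ∈ G}

theorem starPart_isOpen {G : Set ℂ} (hG : IsOpen G) : IsOpen (starPart G) :=
  isOpen_all G hG (fun w t => (t : ℂ) * w) (by fun_prop) 0 1

theorem starPart_sub {G : Set ℂ} : starPart G ⊆ G := fun w hw => by
  have := hw 1 (by simp)
  simpa using this

/-- first point of a ray outside `G` -/
theorem first_hit {G : Set ℂ} (hG : IsOpen G) (h0 : (0 : ℂ) ∈ G) (e : ℂ) (t : ℝ) (ht : 0 ≤ t)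
    (hte : (t : ℂ) * e ∉ G) :
    ∃ s : ℝ, 0 < s ∧ s ≤ t ∧ (s : ℂ) * e ∉ G ∧ ∀ r : ℝ, 0 ≤ r → r < s → (r : ℂ) * e ∈ G := by
  have hc : IsCompact (Icc 0 t ∩ {r : ℝ | (r : ℂ) * e ∉ G}) := by
    apply isCompact_Icc.inter_right
    have : Continuous fun r : ℝ => (r : ℂ) * e := by fun_prop
    exact (hG.preimage this).isClosed_compl
  obtain ⟨s, hs, hmin⟩ := hc.exists_isLeast ⟨t, ⟨ht, le_rfl⟩, hte⟩
  refine ⟨s, lt_of_le_of_ne hs.1.1 ?_, hs.1.2, hs.2, ?_⟩
  · rintro rfl
    exact hs.2 (by simpa using h0)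
  · intro r hr hrs
    by_contra hn
    exact absurd (hmin ⟨⟨hr, hrs.le.trans hs.1.2⟩, hn⟩) (not_le.2 hrs)

section
variable {f : ℂ → ℂ} (hf : DifferentiableOn ℂ f (ball 0 1)) (hi : InjOn f (ball 0 1))
  (h0 : f 0 = 0) (h1 : deriv f 0 = 1)
include hf hi

/-- the inverse map tends to the unit circle at the boundary -/
theorem inv_tendsto (e : ℂ) (s : ℝ) (hs : 0 < s) (hse : (s : ℂ) * e ∉ f '' ball 0 1)
    (hseg : ∀ r : ℝ, 0 ≤ r → r < s → (r : ℂ) * e ∈ f '' ball 0 1) :
    Tendsto (fun r : ℝ => ‖Function.invFunOn f (ball 0 1) ((r : ℂ) * e)‖) (𝓝[<] s) (𝓝 1) := by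
  have hev : ∀ᶠ r : ℝ in 𝓝[<] s, 0 ≤ r ∧ r < s := by
    have h2 : ∀ᶠ r : ℝ in 𝓝[<] s, 0 < r := nhdsWithin_le_nhds (lt_mem_nhds hs)
    filter_upwards [h2, self_mem_nhdsWithin] with r h3 h4 using ⟨h3.le, h4⟩
  rw [tendsto_order]
  constructor
  · intro a ha
    have hK : IsCompact (f '' closedBall 0 a) :=
      (isCompact_closedBall 0 a).image_of_continuousOn
        (hf.continuousOn.mono (closedBall_subset_ball ha))
    have hsK : (s : ℂ) * e ∉ f '' closedBall 0 a :=
      fun h => hse (image_mono (closedBall_subset_ball ha) h)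
    have hcont : Continuous fun r : ℝ => (r : ℂ) * e := by fun_prop
    have hev2 : ∀ᶠ r : ℝ in 𝓝[<] s, (r : ℂ) * e ∉ f '' closedBall 0 a :=
      nhdsWithin_le_nhds (hcont.continuousAt.eventually (hK.isClosed.isOpen_compl.mem_nhds hsK))
    filter_upwards [hev, hev2] with r hr hr2
    by_contra hn
    apply hr2
    have hm := hseg r hr.1 hr.2
    refine ⟨Function.invFunOn f (ball 0 1) ((r : ℂ) * e), ?_, Univ.invFunOn_right hm⟩
    rw [mem_closedBall_zero_iff]
    exact not_lt.1 hn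
  · intro a ha
    filter_upwards [hev] with r hr
    have := Univ.invFunOn_mem (hseg r hr.1 hr.2)
    rw [mem_ball_zero_iff] at this
    exact this.trans ha

theorem inv_diff : DifferentiableOn ℂ (Function.invFunOn f (ball 0 1)) (f '' ball 0 1) := by
  rintro _ ⟨z, hz, rfl⟩
  exact (Univ.hasDerivAt_inv isOpen_ball hf hi hz).differentiableAt.differentiableWithinAt

theorem inv_inj : InjOn (Function.invFunOn f (ball 0 1)) (f '' ball 0 1) := by
  intro w hw w' hw' h
  rw [← Univ.invFunOn_right hw, ← Univ.invFunOn_right hw', h]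

include h0 h1

/-- choice of a small radius -/
theorem small (η : ℝ) (hη : 0 < η) : ∃ ε : ℝ, 0 < ε ∧ ε * (1 + η) ^ 2 ≤ 1 ∧
    (∀ w : ℂ, ‖w‖ ≤ ε → w ∈ f '' ball 0 1) ∧
    (∀ w : ℂ, ‖w‖ = ε → ‖Function.invFunOn f (ball 0 1) w‖ ≤ (1 + η) * ε) ∧
    (∀ w ∈ f '' ball 0 1, ε < ‖w‖ → ε / (1 + η) ≤ ‖Function.invFunOn f (ball 0 1) w‖) := by
  have hz : (0 : ℂ) ∈ ball (0 : ℂ) 1 := by simp
  have hd1 : HasDerivAt f 1 0 := by
    have := (hf.differentiableAt (isOpen_ball.mem_nhds hz)).hasDerivAt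
    rwa [h1] at this
  have hd2 : HasDerivAt (Function.invFunOn f (ball 0 1)) 1 0 := by
    have := Univ.hasDerivAt_inv isOpen_ball hf hi hz
    rwa [h1, h0, inv_one] at this
  have hφ0 : Function.invFunOn f (ball 0 1) 0 = 0 := by
    have := Univ.invFunOn_left hi hz
    rwa [h0] at this
  have hG : f '' ball 0 1 ∈ 𝓝 (0 : ℂ) := by
    have := (Univ.isOpen_image isOpen_ball hf hi isOpen_ball subset_rfl).mem_nhds
      (mem_image_of_mem f hz)
    rwa [h0] at this
  have e1 : ∀ᶠ z in 𝓝 (0 : ℂ), ‖f z‖ ≤ (1 + η) * ‖z‖ := by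
    have := (hasDerivAt_iff_isLittleO_nhds_zero.1 hd1).bound hη
    filter_upwards [this] with z hz
    rw [zero_add, h0, sub_zero, smul_eq_mul, mul_one] at hz
    calc ‖f z‖ = ‖(f z - z) + z‖ := by ring_nf
      _ ≤ ‖f z - z‖ + ‖z‖ := norm_add_le _ _
      _ ≤ η * ‖z‖ + ‖z‖ := by gcongr
      _ = (1 + η) * ‖z‖ := by ring
  have e2 : ∀ᶠ w in 𝓝 (0 : ℂ), ‖Function.invFunOn f (ball 0 1) w‖ ≤ (1 + η) * ‖w‖ := by
    have := (hasDerivAt_iff_isLittleO_nhds_zero.1 hd2).bound hη
    filter_upwards [this] with z hz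
    rw [zero_add, hφ0, sub_zero, smul_eq_mul, mul_one] at hz
    calc _ = ‖(Function.invFunOn f (ball 0 1) z - z) + z‖ := by ring_nf
      _ ≤ ‖Function.invFunOn f (ball 0 1) z - z‖ + ‖z‖ := norm_add_le _ _
      _ ≤ η * ‖z‖ + ‖z‖ := by gcongr
      _ = (1 + η) * ‖z‖ := by ring
  obtain ⟨ρ, hρ, hρs⟩ := Metric.eventually_nhds_iff_ball.1 ((e1.and e2).and hG)
  refine ⟨min (ρ / 2) (1 / (1 + η) ^ 2), by positivity, ?_, ?_, ?_, ?_⟩
  · calc min (ρ / 2) (1 / (1 + η) ^ 2) * (1 + η) ^ 2 ≤ (1 / (1 + η) ^ 2) * (1 + η) ^ 2 := by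
          gcongr; exact min_le_right _ _
      _ = 1 := by field_simp
  · intro w hw
    refine (hρs w ?_).2
    rw [mem_ball_zero_iff]
    exact lt_of_le_of_lt (hw.trans (min_le_left _ _)) (by linarith)
  · intro w hw
    rw [← hw]
    refine (hρs w ?_).1.2
    rw [mem_ball_zero_iff, hw]
    exact lt_of_le_of_lt (min_le_left _ _) (by linarith)
  · intro w hw hlt
    by_contra hn
    push Not at hn
    have hlt2 : ‖Function.invFunOn f (ball 0 1) w‖ < ρ := by
      refine hn.trans ((div_le_self (by positivity) (by linarith)).trans_lt ?_)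
      exact lt_of_le_of_lt (min_le_left _ _) (by linarith)
    have h3 := (hρs _ (mem_ball_zero_iff.2 hlt2)).1.1
    rw [Univ.invFunOn_right hw] at h3
    have h4 : (1 + η) * ‖Function.invFunOn f (ball 0 1) w‖ <
        min (ρ / 2) (1 / (1 + η) ^ 2) := by
      rw [lt_div_iff₀ (by linarith)] at hn
      linarith
    linarith

/-- the key estimate -/
theorem key (hc : ∀ θ : ℝ, ∃ t : ℝ, 0 ≤ t ∧ t < 1 ∧
      (t : ℂ) * Complex.exp (θ * Complex.I) ∉ f '' ball 0 1)
    (a : ℝ) (ha0 : 0 < a) (ha1 : a < 1) (η : ℝ) (hη : 0 < η) :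
    ENNReal.ofReal (Real.log (1 / a)) * volume (Ioo (-π) π ∩
      {θ : ℝ | ¬ ∀ t ∈ Icc (0 : ℝ) a, (t : ℂ) * Complex.exp (θ * Complex.I) ∈ f '' ball 0 1}) ≤
      ENNReal.ofReal (6 * π * Real.log (1 + η)) := by
  set G := f '' ball 0 1 with hGdef
  set φ := Function.invFunOn f (ball 0 1) with hφdef
  have hGo : IsOpen G := Univ.isOpen_image isOpen_ball hf hi isOpen_ball subset_rfl
  have hz : (0 : ℂ) ∈ ball (0 : ℂ) 1 := by simp
  have h0G : (0 : ℂ) ∈ G := ⟨0, hz, h0⟩
  obtain ⟨ε, hε, hε1, hε2, hε3, hε4⟩ := small hf hi h0 h1 η hη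
  set Θ : Set ℝ := {θ : ℝ | ¬ ∀ t ∈ Icc (0 : ℝ) a, (t : ℂ) * Complex.exp (θ * Complex.I) ∈ G}
    with hΘ
  have hΘm : MeasurableSet Θ := by
    have := isOpen_all G hGo (fun (θ : ℝ) (t : ℝ) => (t : ℂ) * Complex.exp (θ * Complex.I))
      (by fun_prop) 0 a
    exact this.measurableSet.compl
  set A : Set ℂ := starPart G ∩ {w | ε < ‖w‖} with hA
  have hAm : MeasurableSet A :=
    ((starPart_isOpen hGo).inter (isOpen_lt continuous_const continuous_norm)).measurableSet
  have hAG : A ⊆ G := fun w hw => starPart_sub hw.1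
  have hη1 : (0 : ℝ) < 1 + η := by linarith
  have hδ : 0 < ε / (1 + η) := by positivity
  have hεle : ε ≤ 1 := by nlinarith [sq_nonneg η]
  have hup : ∫⁻ w in A, dens φ w ≤ ENNReal.ofReal (2 * π * Real.log (1 / (ε / (1 + η)))) :=
    energy_upper φ G A hGo (inv_diff hf hi) (inv_inj hf hi) hAm hAG _ hδ
      ((div_le_self hε.le (by linarith)).trans hεle)
      (fun w hw => ⟨hε4 w (hAG hw) hw.2, by
        have := Univ.invFunOn_mem (hAG hw)
        rwa [mem_ball_zero_iff] at this⟩)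
  -- lower bound
  classical
  have hFm : Measurable (A.indicator (dens φ)) := by
    have hcont : ContinuousOn (dens φ) A := by
      have h3 : DifferentiableOn ℂ (deriv φ) G := (inv_diff hf hi).deriv hGo
      refine ENNReal.continuous_ofReal.comp_continuousOn ?_
      refine ContinuousOn.div ((h3.continuousOn.mono hAG).norm.pow 2)
        (((inv_diff hf hi).continuousOn.mono hAG).norm.pow 2) ?_
      intro w hw
      have := hε4 w (hAG hw) hw.2
      have h5 : 0 < ‖φ w‖ := hδ.trans_le this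
      positivity
    have := hcont.measurable_piecewise (g := fun _ => (0 : ℝ≥0∞)) continuousOn_const hAm
    convert this using 1
    ext w
    by_cases hw : w ∈ A <;> simp [hw]
  have hpol := polar_iter (A.indicator (dens φ)) hFm
  rw [lintegral_indicator hAm] at hpol
  rw [hpol] at hup
  have hlow : ∀ θ ∈ Ioo (-π) π, ENNReal.ofReal (Real.log (1 / ε) - 2 * Real.log (1 + η)) +
      Θ.indicator (fun _ => ENNReal.ofReal (Real.log (1 / a))) θ ≤
      ∫⁻ r in Ioi (0 : ℝ), ENNReal.ofReal r *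
        A.indicator (dens φ) ((r : ℂ) * Complex.exp (θ * Complex.I)) := by
    intro θ _
    set e : ℂ := Complex.exp (θ * Complex.I) with he
    have hne : ‖e‖ = 1 := Complex.norm_exp_ofReal_mul_I θ
    have hnr : ∀ r : ℝ, 0 ≤ r → ‖(r : ℂ) * e‖ = r := by
      intro r hr
      rw [norm_mul, hne, mul_one, Complex.norm_real, Real.norm_of_nonneg hr]
    -- the first hitting time
    obtain ⟨s, hs0, hs1, hsG, hseg, hsa⟩ : ∃ s : ℝ, 0 < s ∧ s < 1 ∧ (s : ℂ) * e ∉ G ∧
        (∀ r : ℝ, 0 ≤ r → r < s → (r : ℂ) * e ∈ G) ∧ (θ ∈ Θ → s ≤ a) := by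
      obtain ⟨t, ht0, ht1, htG⟩ := hc θ
      obtain ⟨s, hs0, hst, hsG, hseg⟩ := first_hit hGo h0G e t ht0 htG
      refine ⟨s, hs0, lt_of_le_of_lt hst ht1, hsG, hseg, ?_⟩
      intro hθ
      simp only [hΘ, mem_ofPred_eq] at hθ
      push Not at hθ
      obtain ⟨t', ht', ht'G⟩ := hθ
      by_contra hn
      push Not at hn
      exact ht'G (hseg t' ht'.1 (lt_of_le_of_lt ht'.2 hn))
    have hεs : ε < s := by
      by_contra hn
      push Not at hn
      apply hsG
      apply hε2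
      rw [hnr s hs0.le]
      exact hn
    have hray := ray_lower φ G hGo (inv_diff hf hi) e hne ε s hε hεs (fun r hr hrs => by
      refine ⟨hseg r (hε.le.trans hr) hrs, ?_⟩
      intro h5
      have h6 := Univ.invFunOn_right (hseg r (hε.le.trans hr) hrs)
      rw [← hφdef, h5, h0] at h6
      have h7 := hnr r (hε.le.trans hr)
      rw [← h6, norm_zero] at h7
      linarith) (inv_tendsto hf hi e s hs0 hsG hseg)
    have hint : ∫⁻ r in Ioo ε s, ENNReal.ofReal r * dens φ ((r : ℂ) * e) ≤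
        ∫⁻ r in Ioi (0 : ℝ), ENNReal.ofReal r * A.indicator (dens φ) ((r : ℂ) * e) := by
      calc _ = ∫⁻ r in Ioo ε s, ENNReal.ofReal r * A.indicator (dens φ) ((r : ℂ) * e) := by
            refine setLIntegral_congr_fun measurableSet_Ioo fun r hr => ?_
            have hmem : (r : ℂ) * e ∈ A := by
              refine ⟨?_, ?_⟩
              · intro t ht
                have h8 := hseg (t * r) (mul_nonneg ht.1 (hε.le.trans hr.1.le))
                  (lt_of_le_of_lt (mul_le_of_le_one_left (hε.le.trans hr.1.le) ht.2) hr.2)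
                rw [← mul_assoc]
                push_cast at h8
                exact h8
              · show ε < ‖(r : ℂ) * e‖
                rw [hnr r (hε.le.trans hr.1.le)]
                exact hr.1
            simp only [indicator_of_mem hmem]
        _ ≤ _ := lintegral_mono_set (fun r hr => hε.trans hr.1)
    refine le_trans ?_ (hray.trans hint)
    have hφe : ‖φ ((ε : ℂ) * e)‖ ≤ (1 + η) * ε := hε3 _ (hnr ε hε.le)
    have hφp : 0 < ‖φ ((ε : ℂ) * e)‖ := by
      rw [norm_pos_iff]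
      intro h5
      have h6 := Univ.invFunOn_right (hseg ε hε.le hεs)
      rw [← hφdef, h5, h0] at h6
      have h7 := hnr ε hε.le
      rw [← h6, norm_zero] at h7
      linarith
    have hl1 : Real.log ‖φ ((ε : ℂ) * e)‖ ≤ Real.log (1 + η) + Real.log ε := by
      rw [← Real.log_mul hη1.ne' hε.ne']
      exact Real.log_le_log hφp hφe
    have hl2 : Real.log (s / ε) = Real.log s - Real.log ε := Real.log_div hs0.ne' hε.ne'
    have hl3 : Real.log (1 / ε) = - Real.log ε := by rw [one_div, Real.log_inv]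
    have hl4 : Real.log (1 / a) = - Real.log a := by rw [one_div, Real.log_inv]
    have hl5 : Real.log s ≤ 0 := Real.log_nonpos hs0.le hs1.le
    have hl6 : 0 ≤ -Real.log a := by
      have := Real.log_nonpos ha0.le ha1.le
      linarith
    have hl7 : 0 ≤ Real.log (1 / ε) - 2 * Real.log (1 + η) := by
      rw [hl3]
      have h9 : Real.log (ε * (1 + η) ^ 2) ≤ 0 := Real.log_nonpos (by positivity) hε1
      rw [Real.log_mul hε.ne' (by positivity), Real.log_pow] at h9
      push_cast at h9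
      linarith
    by_cases hθ : θ ∈ Θ
    · rw [indicator_of_mem hθ, ← ENNReal.ofReal_add hl7 (by rw [hl4]; exact hl6)]
      apply ENNReal.ofReal_le_ofReal
      have h10 : Real.log s ≤ Real.log a := Real.log_le_log hs0 (hsa hθ)
      rw [hl2, hl3, hl4]
      linarith
    · rw [indicator_of_notMem hθ, add_zero]
      apply ENNReal.ofReal_le_ofReal
      rw [hl2, hl3]
      linarith
  have htot := (setLIntegral_mono' measurableSet_Ioo hlow).trans hup
  rw [lintegral_add_left measurable_const, lintegral_const, lintegral_indicator_const hΘm,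
    Measure.restrict_apply hΘm, Measure.restrict_apply MeasurableSet.univ, univ_inter,
    Real.volume_Ioo, inter_comm Θ] at htot
  have hπ := Real.pi_pos
  have hl8 : 0 ≤ Real.log (1 + η) := Real.log_nonneg (by linarith)
  have hl3 : Real.log (1 / ε) = - Real.log ε := by rw [one_div, Real.log_inv]
  have hl7 : 0 ≤ Real.log (1 / ε) - 2 * Real.log (1 + η) := by
    rw [hl3]
    have h9 : Real.log (ε * (1 + η) ^ 2) ≤ 0 := Real.log_nonpos (by positivity) hε1
    rw [Real.log_mul hε.ne' (by positivity), Real.log_pow] at h9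
    push_cast at h9
    linarith
  have hl9 : Real.log (1 / (ε / (1 + η))) = Real.log (1 / ε) + Real.log (1 + η) := by
    rw [one_div_div, Real.log_div hη1.ne' hε.ne', hl3]
    ring
  rw [hl9, ← ENNReal.ofReal_mul hl7] at htot
  have hsplit : ENNReal.ofReal (2 * π * (Real.log (1 / ε) + Real.log (1 + η))) =
      ENNReal.ofReal ((Real.log (1 / ε) - 2 * Real.log (1 + η)) * (π - -π)) +
        ENNReal.ofReal (6 * π * Real.log (1 + η)) := by
    rw [← ENNReal.ofReal_add (mul_nonneg hl7 (by linarith)) (by positivity)]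
    congr 1
    ring
  rw [hsplit] at htot
  exact (ENNReal.add_le_add_iff_left ENNReal.ofReal_ne_top).1 htot

/-- every normalised univalent image contains a radial segment of length one -/
theorem core : ∃ θ : ℝ, ∀ t : ℝ, 0 ≤ t → t < 1 →
    (t : ℂ) * Complex.exp (θ * Complex.I) ∈ f '' ball 0 1 := by
  by_contra hcon
  push Not at hcon
  have hz : ∀ n : ℕ, volume (Ioo (-π) π ∩ {θ : ℝ | ¬ ∀ t ∈ Icc (0 : ℝ) (1 - 1 / (n + 2 : ℝ)),
      (t : ℂ) * Complex.exp (θ * Complex.I) ∈ f '' ball 0 1}) = 0 := by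
    intro n
    have hn2 : (0 : ℝ) < n + 2 := by positivity
    have hn : 1 / (n + 2 : ℝ) < 1 := by
      rw [div_lt_one hn2]
      have : (0 : ℝ) ≤ n := Nat.cast_nonneg n
      linarith
    have hn' : 0 < 1 / (n + 2 : ℝ) := by positivity
    have hk := key hf hi h0 h1 hcon (1 - 1 / (n + 2 : ℝ)) (by linarith) (by linarith)
    have hlim : Tendsto (fun η : ℝ => ENNReal.ofReal (6 * π * Real.log (1 + η))) (𝓝[>] 0)
        (𝓝 0) := by
      have hc : ContinuousAt (fun η : ℝ => ENNReal.ofReal (6 * π * Real.log (1 + η))) 0 := by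
        refine ENNReal.continuous_ofReal.continuousAt.comp ?_
        refine ContinuousAt.mul continuousAt_const ?_
        refine ContinuousAt.log (by fun_prop) (by simp)
      have := hc.tendsto
      simp only [add_zero, Real.log_one, mul_zero, ENNReal.ofReal_zero] at this
      exact this.mono_left nhdsWithin_le_nhds
    have hle := ge_of_tendsto hlim (by
      filter_upwards [self_mem_nhdsWithin] with η hη using hk η hη)
    have h3 : ENNReal.ofReal (Real.log (1 / (1 - 1 / (n + 2 : ℝ)))) ≠ 0 := by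
      rw [Ne, ENNReal.ofReal_eq_zero, not_le]
      apply Real.log_pos
      rw [lt_div_iff₀ (by linarith)]
      linarith
    have h4 := le_antisymm hle bot_le
    rcases mul_eq_zero.1 h4 with h5 | h5
    · exact absurd h5 h3
    · exact h5
  have hU : Ioo (-π) π ⊆ ⋃ n : ℕ, (Ioo (-π) π ∩ {θ : ℝ | ¬ ∀ t ∈ Icc (0 : ℝ) (1 - 1 / (n + 2 : ℝ)),
      (t : ℂ) * Complex.exp (θ * Complex.I) ∈ f '' ball 0 1}) := by
    intro θ hθ
    obtain ⟨t, ht0, ht1, htG⟩ := hcon θ
    obtain ⟨n, hn⟩ := exists_nat_gt (1 / (1 - t))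
    rw [mem_iUnion]
    refine ⟨n, hθ, ?_⟩
    intro hall
    apply htG
    apply hall t ⟨ht0, ?_⟩
    have h6 : 1 / (n + 2 : ℝ) ≤ 1 - t := by
      rw [div_lt_iff₀ (by linarith)] at hn
      rw [div_le_iff₀ (by positivity)]
      nlinarith
    linarith
  have h7 : volume (Ioo (-π) π) = 0 :=
    measure_mono_null hU (measure_iUnion_null hz)
  rw [Real.volume_Ioo, ENNReal.ofReal_eq_zero] at h7
  have := Real.pi_pos
  linarith

end

end Pool.Agent.Helper234.RadSeg
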